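import Mathlib
import Pool.Agent.Q281.RealRoot

set_option autoImplicit false

/-!
# The graphical cycle polynomial of a chordal graph need not be real-rooted (MP_efc620_co)
-/

namespace Pool.Agent.Results.MP_efc620_co.GemNotRealRooted

open Polynomial

/-- number of cycles of a permutation, fixed points included: the number of classes of the
relation `x, y lie in the same cycle of σ` -/
noncomputable def numCycles {V : Type} (σ : Equiv.Perm V) : ℕ :=
  Nat.card (Quotient (Equiv.Perm.SameCycle.setoid σ))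

open Classical in
/-- The graphical cycle polynomial: sum of `x ^ (number of cycles of σ)` over all permutations
`σ` of the vertex set such that `v` and `σ v` are adjacent whenever `σ v ≠ v`. -/
noncomputable def cyclePoly {V : Type} [Fintype V] (G : SimpleGraph V) : ℝ[X] :=
  ∑ σ ∈ Finset.univ.filter (fun σ : Equiv.Perm V => ∀ v, σ v ≠ v → G.Adj v (σ v)),
    X ^ numCycles σ

/-- Chordal graphs: every cycle of length `m + 4 ≥ 4`, given by its vertices `f 0, f 1, ...`
(indices modulo `m + 4`), has a chord, an edge joining two non-consecutive vertices. -/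
def Chordal {V : Type} (G : SimpleGraph V) : Prop :=
  ∀ (m : ℕ) (f : Fin (m + 4) → V), Function.Injective f → (∀ i, G.Adj (f i) (f (i + 1))) →
    ∃ i j : Fin (m + 4), j ≠ i + 1 ∧ i ≠ j + 1 ∧ G.Adj (f i) (f j)

/-- The gem: vertex `0` joined to all vertices of the path `3 - 1 - 2 - 4`. -/
def gem : SimpleGraph (Fin 5) where
  Adj a b := a ≠ b ∧ (a = 0 ∨ b = 0 ∨ (a, b) ∈ [((1 : Fin 5), (2 : Fin 5)), (2, 1), (1, 3),
    (3, 1), (2, 4), (4, 2)])
  symm := ⟨by decide⟩
  loopless := ⟨by decide⟩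

instance : DecidableRel gem.Adj := fun a b => by unfold gem; infer_instance

theorem gem_chordal : Chordal gem := by
  intro m f hf hadj
  have hm : m + 4 ≤ 5 := by simpa using Fintype.card_le_of_injective f hf
  have h1 : ∀ f : Fin 4 → Fin 5, Function.Injective f → (∀ i, gem.Adj (f i) (f (i + 1))) →
      ∃ i j : Fin 4, j ≠ i + 1 ∧ i ≠ j + 1 ∧ gem.Adj (f i) (f j) := by
    decide +kernel
  have h2 : ∀ f : Fin 5 → Fin 5, Function.Injective f → (∀ i, gem.Adj (f i) (f (i + 1))) →
      ∃ i j : Fin 5, j ≠ i + 1 ∧ i ≠ j + 1 ∧ gem.Adj (f i) (f j) := by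
    decide +kernel
  obtain rfl | rfl : m = 0 ∨ m = 1 := by omega
  · exact h1 f hf hadj
  · exact h2 f hf hadj

theorem order_le (σ : Equiv.Perm (Fin 5)) : orderOf σ ≤ 6 := by
  have h : ∀ σ : Equiv.Perm (Fin 5), ∃ n : Fin 6, σ ^ (n.1 + 1) = 1 := by decide +kernel
  obtain ⟨n, hn⟩ := h σ
  exact (orderOf_le_of_pow_eq_one (by omega) hn).trans (by omega)

/-- a computable version of the number of cycles -/
def nc (σ : Equiv.Perm (Fin 5)) : ℕ :=
  (Finset.univ.filter (fun v : Fin 5 => ∀ i : Fin 6, v ≤ (σ ^ i.1) v)).card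

theorem numCycles_eq (σ : Equiv.Perm (Fin 5)) : numCycles σ = nc σ := by
  unfold numCycles nc
  rw [← Fintype.card_subtype, ← Nat.card_eq_fintype_card]
  symm
  refine Nat.card_eq_of_bijective
    (fun v : {v : Fin 5 // ∀ i : Fin 6, v ≤ (σ ^ i.1) v} =>
      (Quotient.mk (Equiv.Perm.SameCycle.setoid σ) v.1)) ⟨?_, ?_⟩
  · intro v w hvw
    have h1 : σ.SameCycle v.1 w.1 := Quotient.exact hvw
    have hle : ∀ v w : {v : Fin 5 // ∀ i : Fin 6, v ≤ (σ ^ i.1) v}, σ.SameCycle v.1 w.1 →
        v.1 ≤ w.1 := by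
      intro v w h
      obtain ⟨i, hi, hi'⟩ := h.exists_pow_eq'
      have := v.2 ⟨i, by have := order_le σ; omega⟩
      simp only at this
      rwa [hi'] at this
    exact Subtype.ext (le_antisymm (hle v w h1) (hle w v h1.symm))
  · intro q
    induction q using Quotient.inductionOn with
    | h x =>
      obtain ⟨v, hv, hmin⟩ := Finset.exists_min_image
        (Finset.univ.filter (fun w : Fin 5 => σ.SameCycle x w)) id
        ⟨x, by simp [Equiv.Perm.SameCycle.refl]⟩
      simp only [Finset.mem_filter, Finset.mem_univ, true_and, id] at hv hmin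
      refine ⟨⟨v, fun i => hmin _ ?_⟩, ?_⟩
      · exact (Equiv.Perm.sameCycle_pow_right).2 hv
      · exact Quotient.sound hv.symm

theorem cyclePoly_gem : cyclePoly gem =
    X ^ 5 + 7 * X ^ 4 + 13 * X ^ 3 + 8 * X ^ 2 + 2 * X := by
  classical
  have h1 : cyclePoly gem = ∑ σ ∈ Finset.univ.filter
      (fun σ : Equiv.Perm (Fin 5) => ∀ v, σ v ≠ v → gem.Adj v (σ v)), (X : ℝ[X]) ^ nc σ := by
    unfold cyclePoly
    refine Finset.sum_congr ?_ fun σ _ => by rw [numCycles_eq]
    ext σ
    simp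
  rw [h1]
  have h2 : ∀ k : Fin 6, ((Finset.univ.filter
      (fun σ : Equiv.Perm (Fin 5) => ∀ v, σ v ≠ v → gem.Adj v (σ v))).filter
      (fun σ => nc σ = k.1)).card = ![0, 2, 8, 13, 7, 1] k := by
    decide +kernel
  have h3 : ∀ σ : Equiv.Perm (Fin 5), nc σ ∈ Finset.range 6 := by
    intro σ
    rw [Finset.mem_range, nc]
    have := Finset.card_le_univ (Finset.univ.filter (fun v : Fin 5 => ∀ i : Fin 6, v ≤ (σ ^ i.1) v))
    simp only [Fintype.card_fin] at this
    omega
  rw [← Finset.sum_fiberwise_of_maps_to (t := Finset.range 6) (g := nc) (fun σ _ => h3 σ)]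
  have h4 : ∀ k ∈ Finset.range 6, (∑ σ ∈ (Finset.univ.filter
      (fun σ : Equiv.Perm (Fin 5) => ∀ v, σ v ≠ v → gem.Adj v (σ v))).filter
      (fun σ => nc σ = k), (X : ℝ[X]) ^ nc σ) =
      (((Finset.univ.filter
      (fun σ : Equiv.Perm (Fin 5) => ∀ v, σ v ≠ v → gem.Adj v (σ v))).filter
      (fun σ => nc σ = k)).card : ℝ[X]) * X ^ k := by
    intro k _
    rw [Finset.sum_congr rfl (g := fun _ => (X : ℝ[X]) ^ k)]
    · rw [Finset.sum_const, nsmul_eq_mul]
    · intro σ hσ
      rw [(Finset.mem_filter.1 hσ).2]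
  rw [Finset.sum_congr rfl h4]
  simp only [Finset.sum_range_succ, Finset.sum_range_zero]
  have g0 := h2 0
  have g1 := h2 1
  have g2 := h2 2
  have g3 := h2 3
  have g4 := h2 4
  have g5 := h2 5
  simp only [Fin.isValue, Fin.val_zero, Fin.val_one, Fin.val_two] at g0 g1 g2 g3 g4 g5
  rw [show ((3 : Fin 6) : ℕ) = 3 from rfl] at g3
  rw [show ((4 : Fin 6) : ℕ) = 4 from rfl] at g4
  rw [show ((5 : Fin 6) : ℕ) = 5 from rfl] at g5
  rw [g0, g1, g2, g3, g4, g5]
  simp only [Matrix.cons_val]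
  push_cast
  ring

/-- There is a chordal graph whose graphical cycle polynomial has a non-real root. -/
theorem result : ∃ (n : ℕ) (G : SimpleGraph (Fin n)), Chordal G ∧
    ∃ z : ℂ, aeval z (cyclePoly G) = 0 ∧ z.im ≠ 0 := by
  refine ⟨5, gem, gem_chordal, ?_⟩
  by_contra hcon
  push Not at hcon
  set q : ℝ[X] := X ^ 4 + 7 * X ^ 3 + 13 * X ^ 2 + 8 * X + 2 with hq
  have hfac : cyclePoly gem = X * q := by
    rw [cyclePoly_gem, hq]
    ring
  have hdeg : q.natDegree = 4 := by
    rw [hq]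
    compute_degree!
  have h0 : q.coeff 0 = 2 := by
    rw [hq, coeff_zero_eq_eval_zero]; simp
  have h1 : q.coeff 1 = 8 := by
    rw [hq]
    simp [coeff_X, coeff_ofNat_mul, coeff_X_pow]
  have h2 : q.coeff 2 = 13 := by
    rw [hq]
    simp [coeff_X, coeff_ofNat_mul, coeff_X_pow]
  have h := Pool.Agent.Q281.RealRoot.newton_low q (fun z hz => hcon z (by
    rw [hfac, map_mul, hz, mul_zero])) (by omega)
  rw [hdeg, h0, h1, h2] at h
  norm_num at h

end Pool.Agent.Results.MP_efc620_co.GemNotRealRooted
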